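import Mathlib

namespace Pool.Agent.Results.MP_4223bd_al.Counter

open Finset

variable {n : ℕ}

/-- The bilinear form on the root lattice `ℤ^n` (coordinates in the simple roots) with Gram
matrix `G i j = (α_i, α_j)`. -/
def form (G : Matrix (Fin n) (Fin n) ℤ) (β γ : Fin n → ℤ) : ℤ := ∑ i, ∑ j, β i * G i j * γ j

/-- `Φ` is an irreducible reduced crystallographic root system whose simple roots are the
coordinate vectors, with positive definite invariant form `G` giving short roots square length 2. -/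
structure IsRootSystem (Φ : Finset (Fin n → ℤ)) (G : Matrix (Fin n) (Fin n) ℤ) : Prop where
  symm : ∀ i j, G i j = G j i
  posDef : ∀ x : Fin n → ℤ, x ≠ 0 → 0 < form G x x
  zero_notMem : (0 : Fin n → ℤ) ∉ Φ
  simple_mem : ∀ i, Pi.single i 1 ∈ Φ
  sign : ∀ γ ∈ Φ, (∀ i, 0 ≤ γ i) ∨ ∀ i, γ i ≤ 0
  reflect : ∀ β ∈ Φ, ∀ γ ∈ Φ, form G γ γ ∣ 2 * form G β γ ∧
    β - (2 * form G β γ / form G γ γ) • γ ∈ Φ
  reduced : ∀ γ ∈ Φ, (2 : ℤ) • γ ∉ Φ
  irreducible : ∀ S : Finset (Fin n), (∀ i ∈ S, ∀ j ∉ S, G i j = 0) → S = ∅ ∨ S = univ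
  short : (∀ γ ∈ Φ, 2 ≤ form G γ γ) ∧ ∃ γ ∈ Φ, form G γ γ = 2

/-- `(β, β) / 2` for `β ∈ Q^{≥0}`. -/
def half (G : Matrix (Fin n) (Fin n) ℤ) (β : Fin n → ℕ) : ℕ :=
  (form G (fun i => β i) (fun i => β i) / 2).toNat

/-- `(q)_α = ∏_i ∏_{j=1}^{a_i} (1 - q^(d_i j))`, `d_i = (α_i, α_i) / 2`. -/
noncomputable def qp (G : Matrix (Fin n) (Fin n) ℤ) (α : Fin n → ℕ) : RatFunc ℚ :=
  ∏ i, ∏ j ∈ Icc 1 (α i), (1 - RatFunc.X ^ ((G i i / 2).toNat * j))

/-- The rational functions `𝔍_α`. -/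
noncomputable def J (G : Matrix (Fin n) (Fin n) ℤ) (α : Fin n → ℕ) : RatFunc ℚ :=
  if α = 0 then 1 else (1 - RatFunc.X ^ half G α)⁻¹ *
    ∑ β ∈ (Iio α).attach, RatFunc.X ^ half G β.1 / qp G (α - β.1) * J G β.1
termination_by ∑ i, α i
decreasing_by
  obtain ⟨h, i, hi⟩ := Pi.lt_def.1 (mem_Iio.1 β.2)
  exact sum_lt_sum (fun j _ => h j) ⟨i, mem_univ i, hi⟩

theorem J_eq (G : Matrix (Fin n) (Fin n) ℤ) (α : Fin n → ℕ) (h : α ≠ 0) :
    J G α = (1 - RatFunc.X ^ half G α)⁻¹ *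
      ∑ β ∈ Iio α, RatFunc.X ^ half G β / qp G (α - β) * J G β := by
  rw [J, if_neg h, sum_attach (Iio α) fun β => RatFunc.X ^ half G β / qp G (α - β) * J G β]

theorem J_zero (G : Matrix (Fin n) (Fin n) ℤ) : J G 0 = 1 := by rw [J, if_pos rfl]

def G3 : Matrix (Fin 3) (Fin 3) ℤ := !![4, -2, 0; -2, 4, -2; 0, -2, 2]

def pos3 : Finset (Fin 3 → ℤ) := {![1, 0, 0], ![0, 1, 0], ![0, 0, 1], ![1, 1, 0], ![0, 1, 1],
  ![1, 1, 1], ![0, 1, 2], ![1, 1, 2], ![1, 2, 2]}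

theorem root3 : IsRootSystem (pos3 ∪ pos3.image fun γ => -γ) G3 where
  symm := by decide +kernel
  posDef := by
    intro x hx
    have e : form G3 x x = 2 * ((x 0) ^ 2 + (x 1 - x 0) ^ 2 + (x 2 - x 1) ^ 2) := by
      simp [form, G3, Fin.sum_univ_three]; ring
    rw [e]
    by_contra hc
    apply hx
    have h0 : x 0 = 0 := by nlinarith [sq_nonneg (x 0), sq_nonneg (x 1 - x 0), sq_nonneg (x 2 - x 1)]
    have h1 : x 1 - x 0 = 0 := by
      nlinarith [sq_nonneg (x 0), sq_nonneg (x 1 - x 0), sq_nonneg (x 2 - x 1)]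
    have h2 : x 2 - x 1 = 0 := by
      nlinarith [sq_nonneg (x 0), sq_nonneg (x 1 - x 0), sq_nonneg (x 2 - x 1)]
    funext i
    fin_cases i <;> simp <;> omega
  zero_notMem := by decide +kernel
  simple_mem := by decide +kernel
  sign := by decide +kernel
  reflect := by decide +kernel
  reduced := by decide +kernel
  irreducible := by decide +kernel
  short := by decide +kernel

theorem result : ∃ (n : ℕ) (Φ : Finset (Fin n → ℤ)) (G : Matrix (Fin n) (Fin n) ℤ),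
    IsRootSystem Φ G ∧ ∃ (α : Fin n → ℕ) (N : Polynomial ℚ),
      algebraMap (Polynomial ℚ) (RatFunc ℚ) N = qp G α ^ 2 * J G α ∧
      ∃ i j k : ℕ, i < j ∧ j < k ∧ N.coeff j < min (N.coeff i) (N.coeff k) := by
  refine ⟨3, _, G3, root3, ![1, 1, 0], 1 + Polynomial.X ^ 2, ?_, 0, 1, 2, by norm_num,
    by norm_num, by simp [Polynomial.coeff_one, Polynomial.coeff_X_pow]⟩
  have hne : (1 - RatFunc.X ^ 2 : RatFunc ℚ) ≠ 0 := by
    have : (1 - RatFunc.X ^ 2 : RatFunc ℚ) =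
        algebraMap (Polynomial ℚ) (RatFunc ℚ) (1 - Polynomial.X ^ 2) := by simp
    rw [this]
    refine RatFunc.algebraMap_ne_zero fun h => ?_
    simpa using congrArg (Polynomial.eval 0) h
  have z : (![0, 0, 0] : Fin 3 → ℕ) = 0 := by decide +kernel
  have i1 : Iio (![1, 0, 0] : Fin 3 → ℕ) = {0} := by decide +kernel
  have i2 : Iio (![0, 1, 0] : Fin 3 → ℕ) = {0} := by decide +kernel
  have i3 : Iio (![1, 1, 0] : Fin 3 → ℕ) = {0, ![1, 0, 0], ![0, 1, 0]} := by decide +kernel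
  have h0 : half G3 0 = 0 := by decide +kernel
  have h1 : half G3 ![1, 0, 0] = 2 := by decide +kernel
  have h2 : half G3 ![0, 1, 0] = 2 := by decide +kernel
  have h3 : half G3 ![1, 1, 0] = 2 := by decide +kernel
  have q1 : qp G3 ![1, 0, 0] = 1 - RatFunc.X ^ 2 := by simp [qp, G3, Fin.prod_univ_three]
  have q2 : qp G3 ![0, 1, 0] = 1 - RatFunc.X ^ 2 := by simp [qp, G3, Fin.prod_univ_three]
  have q3 : qp G3 ![1, 1, 0] = (1 - RatFunc.X ^ 2) ^ 2 := by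
    simp [qp, G3, Fin.prod_univ_three, sq]
  have s1 : (![1, 1, 0] - ![1, 0, 0] : Fin 3 → ℕ) = ![0, 1, 0] := by decide +kernel
  have s2 : (![1, 1, 0] - ![0, 1, 0] : Fin 3 → ℕ) = ![1, 0, 0] := by decide +kernel
  have j1 := J_eq G3 ![1, 0, 0] (by decide +kernel)
  have j2 := J_eq G3 ![0, 1, 0] (by decide +kernel)
  rw [i1, sum_singleton, J_zero, h0, h1, tsub_zero, q1] at j1
  rw [i2, sum_singleton, J_zero, h0, h2, tsub_zero, q2] at j2
  rw [J_eq G3 _ (by decide +kernel), i3, sum_insert (by decide +kernel),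
    sum_pair (by decide +kernel), J_zero, h0, h1, h2, h3, tsub_zero, s1, s2, q1, q2, q3, j1, j2]
  simp only [map_add, map_one, map_pow, RatFunc.algebraMap_X]
  field_simp
  ring

end Pool.Agent.Results.MP_4223bd_al.Counter
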